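import Pool.Agent.Run7.h325.RSI.Stm

set_option autoImplicit false

/-!
# The `A_2` condition for a single atom (piece `A2LOC`)
-/

namespace Pool.Agent.Run7.h437.RSI

open MeasureTheory Filter Topology Metric Pool.Agent.Run7.h325.RSI

noncomputable section

lemma int_le_const (x : E2) (R c : ℝ) (f : E2 → ℝ) (hf : IntegrableOn f (ball x R))
    (h : ∀ᵐ y ∂(volume : Measure E2), y ∈ ball x R → f y ≤ c) :
    ∫ y in ball x R, f y ≤ c * (volume (ball x R)).toReal := by
  have h1 : ∫ y in ball x R, f y ≤ ∫ y in ball x R, c :=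
    setIntegral_mono_ae_restrict hf (integrableOn_const measure_ball_lt_top.ne)
      ((ae_restrict_iff' measurableSet_ball).mpr h)
  rw [setIntegral_const, smul_eq_mul, mul_comm] at h1
  exact h1

lemma r0_pos (m : ℕ) (hm : 1 ≤ m) : 0 < r0 m := by
  have : (1 : ℝ) ≤ m := by exact_mod_cast hm
  unfold r0
  positivity

lemma one_le_m4 (m : ℕ) (hm : 1 ≤ m) : (1 : ℝ) ≤ (m : ℝ) ^ 4 := by
  have : (1 : ℝ) ≤ m := by exact_mod_cast hm
  exact one_le_pow₀ this

lemma dl_pos (m : ℕ) (hm : 1 ≤ m) : 0 < dl m := by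
  have := one_le_m4 m hm
  unfold dl
  positivity

lemma dl_le_one (m : ℕ) (hm : 1 ≤ m) : dl m ≤ 1 := by
  have := one_le_m4 m hm
  unfold dl
  rw [div_le_one (by positivity)]
  exact this

theorem t_A2LOC (hRAD : S_RAD) (hGINT : S_GINT) (hGRP : S_GRP) : S_A2LOC := by
  intro m hm a x R hR
  obtain ⟨hG1, hanti, h9, hout, hmeas⟩ := hGRP m hm
  have hr0 := r0_pos m hm
  have hm4 := one_le_m4 m hm
  have hdl := dl_pos m hm
  have hdl1 := dl_le_one m hm
  have hvol : (volume (ball x R)).toReal = Real.pi * R ^ 2 := hRAD.2.2 x R hR.le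
  have hpi := Real.pi_pos
  set G : E2 → ℝ := fun y => Gr m ‖y - a‖ with hG
  have hGm : Measurable G := hmeas.comp (measurable_norm.comp (measurable_id.sub_const a))
  have hGpos : ∀ y, 0 < G y := fun y => lt_of_lt_of_le one_pos (hG1 _)
  -- translation of GINT
  have hmp : MeasurePreserving (fun y : E2 => y - a) volume volume :=
    measurePreserving_sub_right volume a
  have hemb : MeasurableEmbedding (fun y : E2 => y - a) :=
    (Homeomorph.subRight a).measurableEmbedding
  have hpre : ∀ t : ℝ, (fun y : E2 => y - a) ⁻¹' (ball 0 t) = ball a t := by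
    intro t
    ext y
    simp [mem_ball, dist_eq_norm]
  have hint : ∀ t : ℝ, 0 < t → t ≤ r0 m → IntegrableOn G (ball a t) ∧
      ∫ y in ball a t, G y = 2 * Real.pi * r0 m ^ 2 * (t / r0 m) ^ (dl m) * (m : ℝ) ^ 4 := by
    intro t ht ht'
    obtain ⟨i1, i2⟩ := hGINT m hm t ht ht'
    constructor
    · rw [← hpre t]
      exact (hmp.integrableOn_comp_preimage hemb).mpr i1
    · rw [← hpre t, ← i2]
      exact hmp.setIntegral_preimage_emb hemb (fun x => Gr m ‖x‖) (ball 0 t)
  -- integrability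
  obtain ⟨j1, j2⟩ := hint (r0 m) hr0 le_rfl
  rw [div_self hr0.ne', Real.one_rpow, mul_one] at j2
  have hJ : Integrable ((ball a (r0 m)).indicator G) :=
    (integrable_indicator_iff measurableSet_ball).mpr j1
  have hJ0 : ∀ y, 0 ≤ (ball a (r0 m)).indicator G y := fun y =>
    Set.indicator_nonneg (fun z _ => (hGpos z).le) y
  have hGle : ∀ y, G y ≤ 1 + (ball a (r0 m)).indicator G y := by
    intro y
    by_cases hy : y ∈ ball a (r0 m)
    · rw [Set.indicator_of_mem hy]; linarith
    · rw [Set.indicator_of_notMem hy, add_zero]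
      rw [mem_ball, dist_eq_norm, not_lt] at hy
      exact (hout _ hy).le
  have hone : IntegrableOn (fun _ : E2 => (1 : ℝ)) (ball x R) :=
    integrableOn_const measure_ball_lt_top.ne
  have hGi : IntegrableOn G (ball x R) := by
    refine Integrable.mono' (hone.add hJ.integrableOn) hGm.aestronglyMeasurable ?_
    refine ae_of_all _ fun y => ?_
    rw [Real.norm_eq_abs, abs_of_pos (hGpos y)]
    exact hGle y
  have hGii : IntegrableOn (fun y => (G y)⁻¹) (ball x R) := by
    refine Integrable.mono' hone hGm.inv.aestronglyMeasurable ?_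
    refine ae_of_all _ fun y => ?_
    rw [Real.norm_eq_abs, abs_of_pos (inv_pos.mpr (hGpos y))]
    exact inv_le_one_of_one_le₀ (hG1 _)
  refine ⟨hGi, hGii, ?_⟩
  have hI1 : 0 ≤ ∫ y in ball x R, (G y)⁻¹ :=
    setIntegral_nonneg measurableSet_ball fun y _ => (inv_pos.mpr (hGpos y)).le
  have hI0 : 0 ≤ ∫ y in ball x R, G y :=
    setIntegral_nonneg measurableSet_ball fun y _ => (hGpos y).le
  have hVpos : 0 < Real.pi * R ^ 2 := by positivity
  show (∫ y in ball x R, G y) * (∫ y in ball x R, (G y)⁻¹) ≤ _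
  rcases lt_or_ge (r0 m) (3 * R) with hc | hc
  · -- case (ii)
    have e1 : ∫ y in ball x R, G y ≤ Real.pi * R ^ 2 + 2 * Real.pi * r0 m ^ 2 * (m : ℝ) ^ 4 := by
      calc ∫ y in ball x R, G y
          ≤ ∫ y in ball x R, (1 + (ball a (r0 m)).indicator G y) :=
            setIntegral_mono hGi (hone.add hJ.integrableOn) hGle
        _ = (∫ y in ball x R, (1 : ℝ)) + ∫ y in ball x R, (ball a (r0 m)).indicator G y :=
            integral_add hone hJ.integrableOn
        _ ≤ Real.pi * R ^ 2 + ∫ y, (ball a (r0 m)).indicator G y := by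
            refine add_le_add (le_of_eq ?_) ?_
            · rw [setIntegral_const, smul_eq_mul, mul_one]
              exact hvol
            · exact setIntegral_le_integral hJ (ae_of_all _ hJ0)
        _ = _ := by rw [integral_indicator measurableSet_ball, j2]
    have e2 : ∫ y in ball x R, (G y)⁻¹ ≤ 1 * (Real.pi * R ^ 2) := by
      rw [← hvol]
      exact int_le_const x R 1 _ hGii (ae_of_all _ fun y _ => inv_le_one_of_one_le₀ (hG1 _))
    have e3 : Real.pi * R ^ 2 + 2 * Real.pi * r0 m ^ 2 * (m : ℝ) ^ 4 ≤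
        19 * (m : ℝ) ^ 4 * (Real.pi * R ^ 2) := by
      have h1 : r0 m ^ 2 ≤ (3 * R) ^ 2 := pow_le_pow_left₀ hr0.le hc.le 2
      have h2 : 2 * Real.pi * r0 m ^ 2 * (m : ℝ) ^ 4 ≤ 2 * Real.pi * (3 * R) ^ 2 * (m : ℝ) ^ 4 := by
        gcongr
      have h3 : Real.pi * R ^ 2 * 1 ≤ Real.pi * R ^ 2 * (m : ℝ) ^ 4 :=
        mul_le_mul_of_nonneg_left hm4 hVpos.le
      nlinarith
    calc (∫ y in ball x R, G y) * (∫ y in ball x R, (G y)⁻¹)
        ≤ (19 * (m : ℝ) ^ 4 * (Real.pi * R ^ 2)) * (1 * (Real.pi * R ^ 2)) :=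
          mul_le_mul (e1.trans e3) e2 hI1 (by positivity)
      _ = _ := by ring
  · rcases lt_or_ge ‖x - a‖ (2 * R) with hd | hd
    · -- case (i)
      have hsub : ball x R ⊆ ball a (3 * R) := by
        intro y hy
        rw [mem_ball, dist_eq_norm] at hy ⊢
        have h1 : y - a = (y - x) + (x - a) := by abel
        rw [h1]
        exact (norm_add_le _ _).trans_lt (by linarith)
      obtain ⟨k1, k2⟩ := hint (3 * R) (by positivity) hc
      have e1 : ∫ y in ball x R, G y ≤
          2 * Real.pi * r0 m ^ 2 * (3 * R / r0 m) ^ (dl m) * (m : ℝ) ^ 4 := by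
        rw [← k2]
        exact setIntegral_mono_set k1 (ae_of_all _ fun y => (hGpos y).le) hsub.eventuallyLE
      have e2 : ∫ y in ball x R, (G y)⁻¹ ≤ (3 * R / r0 m) ^ (2 - dl m) * (Real.pi * R ^ 2) := by
        rw [← hvol]
        refine int_le_const x R _ _ hGii ?_
        have hne : ∀ᵐ y : E2, y ≠ a := by
          rw [ae_iff]
          simp
        filter_upwards [hne] with y hya hy
        have h1 : 0 < ‖y - a‖ := norm_pos_iff.mpr (sub_ne_zero.mpr hya)
        have h2 := hsub hy
        rw [mem_ball, dist_eq_norm] at h2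
        have h3 : G y = (‖y - a‖ / r0 m) ^ (-(2 - dl m)) := by
          show Gr m ‖y - a‖ = _
          unfold Gr
          rw [if_pos ⟨h1, lt_of_lt_of_le h2 hc⟩]
        rw [h3, Real.rpow_neg (by positivity), inv_inv]
        refine Real.rpow_le_rpow (by positivity) ?_ (by linarith)
        exact div_le_div_of_nonneg_right h2.le hr0.le
      have hq : 0 < 3 * R / r0 m := by positivity
      have e3 : (3 * R / r0 m) ^ (dl m) * (3 * R / r0 m) ^ (2 - dl m) = (3 * R / r0 m) ^ 2 := by
        rw [← Real.rpow_add hq]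
        rw [show dl m + (2 - dl m) = ((2 : ℕ) : ℝ) by push_cast; ring, Real.rpow_natCast]
      calc (∫ y in ball x R, G y) * (∫ y in ball x R, (G y)⁻¹)
          ≤ (2 * Real.pi * r0 m ^ 2 * (3 * R / r0 m) ^ (dl m) * (m : ℝ) ^ 4) *
            ((3 * R / r0 m) ^ (2 - dl m) * (Real.pi * R ^ 2)) :=
            mul_le_mul e1 e2 hI1 (by positivity)
        _ = 2 * Real.pi * r0 m ^ 2 * (m : ℝ) ^ 4 * (Real.pi * R ^ 2) *
            ((3 * R / r0 m) ^ (dl m) * (3 * R / r0 m) ^ (2 - dl m)) := by ring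
        _ = 18 * (m : ℝ) ^ 4 * (Real.pi * R ^ 2) ^ 2 := by
            rw [e3]
            field_simp
            ring
        _ ≤ 19 * (m : ℝ) ^ 4 * (Real.pi * R ^ 2) ^ 2 := by gcongr; norm_num
    · -- case (iii)
      have hd0 : 0 < ‖x - a‖ := by linarith
      set d := ‖x - a‖ with hdd
      have hb : ∀ y ∈ ball x R, d / 2 ≤ ‖y - a‖ ∧ ‖y - a‖ ≤ 3 * d / 2 := by
        intro y hy
        rw [mem_ball, dist_eq_norm] at hy
        constructor
        · have h1 : x - a = (y - a) - (y - x) := by abel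
          have h2 : d ≤ ‖y - a‖ + ‖y - x‖ := by
            rw [hdd, h1]
            exact norm_sub_le _ _
          linarith
        · have h1 : y - a = (y - x) + (x - a) := by abel
          have h2 : ‖y - a‖ ≤ ‖y - x‖ + d := by
            rw [h1]
            exact norm_add_le _ _
          linarith
      have hc1 : 0 < Gr m (3 * d / 2) := lt_of_lt_of_le one_pos (hG1 _)
      have e1 : ∫ y in ball x R, G y ≤ (9 * Gr m (3 * d / 2)) * (Real.pi * R ^ 2) := by
        rw [← hvol]
        refine int_le_const x R _ _ hGi (ae_of_all _ fun y hy => ?_)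
        have h1 := hanti (d / 2) ‖y - a‖ (by positivity) (hb y hy).1
        have h2 := h9 (3 * d / 2) (by positivity)
        rw [show 3 * d / 2 / 3 = d / 2 by ring] at h2
        exact h1.trans h2
      have e2 : ∫ y in ball x R, (G y)⁻¹ ≤ (Gr m (3 * d / 2))⁻¹ * (Real.pi * R ^ 2) := by
        rw [← hvol]
        refine int_le_const x R _ _ hGii (ae_of_all _ fun y hy => ?_)
        have h0 : 0 < ‖y - a‖ := lt_of_lt_of_le (by positivity) (hb y hy).1
        have h1 := hanti ‖y - a‖ (3 * d / 2) h0 (hb y hy).2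
        exact inv_anti₀ hc1 h1
      calc (∫ y in ball x R, G y) * (∫ y in ball x R, (G y)⁻¹)
          ≤ ((9 * Gr m (3 * d / 2)) * (Real.pi * R ^ 2)) *
            ((Gr m (3 * d / 2))⁻¹ * (Real.pi * R ^ 2)) :=
            mul_le_mul e1 e2 hI1 (by positivity)
        _ = 9 * (Real.pi * R ^ 2) ^ 2 := by
            field_simp
        _ ≤ 19 * (m : ℝ) ^ 4 * (Real.pi * R ^ 2) ^ 2 := by
            refine mul_le_mul_of_nonneg_right ?_ (by positivity)
            linarith

end

end Pool.Agent.Run7.h437.RSI
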