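import Pool.Agent.Run7.h325.RSI.Stm

set_option autoImplicit false

/-!
# Existence of the principal value (piece `PV`)
-/

namespace Pool.Agent.Run7.h437.RSI

open MeasureTheory Filter Topology Metric Pool.Agent.Run7.h325.RSI

noncomputable section

lemma finrank_E2 : Module.finrank ℝ E2 = 2 := by
  simp [E2]

lemma polar (Ω : E2 → ℝ) (g : ℝ → ℝ) (hhom : ∀ x, ∀ t : ℝ, 0 < t → Ω (t • x) = Ω x) :
    ∫ y : E2, Ω y * g ‖y‖ =
      (∫ ω : sphere (0 : E2) 1, Ω ω ∂(volume : Measure E2).toSphere) *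
        ∫ r : Set.Ioi (0 : ℝ), g r ∂(Measure.volumeIoiPow (Module.finrank ℝ E2 - 1)) := by
  calc ∫ y : E2, Ω y * g ‖y‖
      = ∫ y : ({(0 : E2)}ᶜ : Set E2), Ω y.1 * g ‖y.1‖ ∂((volume : Measure E2).comap (↑)) := by
        rw [integral_subtype_comap (measurableSet_singleton _).compl fun x ↦ Ω x * g (‖x‖),
          restrict_compl_singleton]
    _ = ∫ x : sphere (0 : E2) 1 × Set.Ioi (0 : ℝ), Ω x.1 * g x.2
          ∂((volume : Measure E2).toSphere.prod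
            (.volumeIoiPow (Module.finrank ℝ E2 - 1))) := by
        rw [← (volume : Measure E2).measurePreserving_homeomorphUnitSphereProd.integral_comp
          (Homeomorph.measurableEmbedding _)
          (fun x : sphere (0 : E2) 1 × Set.Ioi (0 : ℝ) => Ω x.1 * g x.2)]
        refine integral_congr_ae (ae_of_all _ ?_)
        intro y
        have hy : (y : E2) ≠ 0 := y.2
        have hy' : 0 < ‖(y : E2)‖ := norm_pos_iff.mpr hy
        have h1 : Ω ((homeomorphUnitSphereProd E2 y).1 : E2) = Ω (y : E2) := by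
          rw [homeomorphUnitSphereProd_apply_fst_coe]
          exact hhom _ _ (inv_pos.mpr hy')
        have h2 : ((homeomorphUnitSphereProd E2 y).2 : ℝ) = ‖(y : E2)‖ := by
          rw [homeomorphUnitSphereProd_apply_snd_coe]
        show Ω (y : E2) * g ‖(y : E2)‖ = Ω ((homeomorphUnitSphereProd E2 y).1 : E2) *
          g ((homeomorphUnitSphereProd E2 y).2 : ℝ)
        rw [h1, h2]
    _ = _ := integral_prod_mul (fun ω : sphere (0 : E2) 1 => Ω ω)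
        (fun r : Set.Ioi (0 : ℝ) => g r)

lemma sphere_mean_zero (Ω : E2 → ℝ) (hhom : ∀ x, ∀ t : ℝ, 0 < t → Ω (t • x) = Ω x)
    (h0 : (∫ y in {y : E2 | 1 ≤ ‖y‖ ∧ ‖y‖ ≤ 2}, Ω y) = 0) :
    ∫ ω : sphere (0 : E2) 1, Ω ω ∂(volume : Measure E2).toSphere = 0 := by
  have hm : MeasurableSet {y : E2 | 1 ≤ ‖y‖ ∧ ‖y‖ ≤ 2} :=
    (measurableSet_le measurable_const measurable_norm).inter
      (measurableSet_le measurable_norm measurable_const)
  have key : ∀ Φ : E2 → ℝ, ∫ y : E2, Φ y * (Set.Icc (1 : ℝ) 2).indicator (fun _ => (1 : ℝ)) ‖y‖ =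
      ∫ y in {y : E2 | 1 ≤ ‖y‖ ∧ ‖y‖ ≤ 2}, Φ y := by
    intro Φ
    rw [← integral_indicator hm]
    refine integral_congr_ae (ae_of_all _ ?_)
    intro y
    by_cases hy : 1 ≤ ‖y‖ ∧ ‖y‖ ≤ 2
    · have h1 : ‖y‖ ∈ Set.Icc (1 : ℝ) 2 := hy
      have h2 : y ∈ {y : E2 | 1 ≤ ‖y‖ ∧ ‖y‖ ≤ 2} := hy
      show Φ y * (Set.Icc (1 : ℝ) 2).indicator (fun _ => (1 : ℝ)) ‖y‖ =
        Set.indicator {y : E2 | 1 ≤ ‖y‖ ∧ ‖y‖ ≤ 2} (fun y => Φ y) y
      rw [Set.indicator_of_mem h1, Set.indicator_of_mem h2, mul_one]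
    · have h1 : ‖y‖ ∉ Set.Icc (1 : ℝ) 2 := hy
      have h2 : y ∉ {y : E2 | 1 ≤ ‖y‖ ∧ ‖y‖ ≤ 2} := hy
      show Φ y * (Set.Icc (1 : ℝ) 2).indicator (fun _ => (1 : ℝ)) ‖y‖ =
        Set.indicator {y : E2 | 1 ≤ ‖y‖ ∧ ‖y‖ ≤ 2} (fun y => Φ y) y
      rw [Set.indicator_of_notMem h1, Set.indicator_of_notMem h2, mul_zero]
  have e1 := polar Ω ((Set.Icc (1 : ℝ) 2).indicator (fun _ => (1 : ℝ))) hhom
  rw [key, h0] at e1
  have e2 := polar (fun _ => (1 : ℝ)) ((Set.Icc (1 : ℝ) 2).indicator (fun _ => (1 : ℝ)))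
    (fun _ _ _ => rfl)
  rw [key] at e2
  have hpos : 0 < ∫ y in {y : E2 | 1 ≤ ‖y‖ ∧ ‖y‖ ≤ 2}, (1 : ℝ) := by
    rw [setIntegral_const, smul_eq_mul, mul_one]
    refine ENNReal.toReal_pos ?_ ?_
    · have hsub : ball (EuclideanSpace.single (0 : Fin 2) (3 / 2 : ℝ)) (1 / 2) ⊆
          {y : E2 | 1 ≤ ‖y‖ ∧ ‖y‖ ≤ 2} := by
        intro y hy
        rw [mem_ball, dist_eq_norm] at hy
        have hn : ‖EuclideanSpace.single (0 : Fin 2) (3 / 2 : ℝ)‖ = 3 / 2 := by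
          rw [PiLp.norm_single, Real.norm_eq_abs, abs_of_pos (by norm_num)]
        have h1 := norm_sub_norm_le y (EuclideanSpace.single (0 : Fin 2) (3 / 2 : ℝ))
        have h2 := norm_sub_norm_le (EuclideanSpace.single (0 : Fin 2) (3 / 2 : ℝ)) y
        rw [norm_sub_rev] at h2
        rw [hn] at h1 h2
        exact ⟨by linarith, by linarith⟩
      have h3 : 0 < volume (ball (EuclideanSpace.single (0 : Fin 2) (3 / 2 : ℝ)) (1 / 2)) :=
        measure_ball_pos _ _ (by norm_num)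
      exact (lt_of_lt_of_le h3 (measure_mono hsub)).ne'
    · have hsub : {y : E2 | 1 ≤ ‖y‖ ∧ ‖y‖ ≤ 2} ⊆ closedBall (0 : E2) 2 := by
        intro y hy
        rw [mem_closedBall, dist_zero_right]
        exact hy.2
      exact (lt_of_le_of_lt (measure_mono hsub) measure_closedBall_lt_top).ne
  have hne : ∫ r : Set.Ioi (0 : ℝ), (Set.Icc (1 : ℝ) 2).indicator (fun _ => (1 : ℝ)) (r : ℝ)
      ∂(Measure.volumeIoiPow (Module.finrank ℝ E2 - 1)) ≠ 0 := by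
    intro h
    rw [h, mul_zero] at e2
    exact hpos.ne' e2
  rcases mul_eq_zero.mp e1.symm with h | h
  · exact h
  · exact absurd h hne

lemma annulus_zero (Ω : E2 → ℝ) (hhom : ∀ x, ∀ t : ℝ, 0 < t → Ω (t • x) = Ω x)
    (h0 : (∫ y in {y : E2 | 1 ≤ ‖y‖ ∧ ‖y‖ ≤ 2}, Ω y) = 0) (ε : ℝ) :
    ∫ y in {y : E2 | ε < ‖y‖ ∧ ‖y‖ ≤ 1}, Ω y / ‖y‖ ^ 2 = 0 := by
  have hm : MeasurableSet {y : E2 | ε < ‖y‖ ∧ ‖y‖ ≤ 1} :=
    (measurableSet_lt measurable_const measurable_norm).inter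
      (measurableSet_le measurable_norm measurable_const)
  have e1 := polar Ω ((Set.Ioc ε 1).indicator (fun r => 1 / r ^ 2)) hhom
  rw [sphere_mean_zero Ω hhom h0, zero_mul] at e1
  rw [← e1, ← integral_indicator hm]
  refine integral_congr_ae (ae_of_all _ ?_)
  intro y
  by_cases hy : ε < ‖y‖ ∧ ‖y‖ ≤ 1
  · have h1 : ‖y‖ ∈ Set.Ioc ε 1 := hy
    have h2 : y ∈ {y : E2 | ε < ‖y‖ ∧ ‖y‖ ≤ 1} := hy
    show Set.indicator {y : E2 | ε < ‖y‖ ∧ ‖y‖ ≤ 1} (fun y => Ω y / ‖y‖ ^ 2) y =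
      Ω y * (Set.Ioc ε 1).indicator (fun r => 1 / r ^ 2) ‖y‖
    rw [Set.indicator_of_mem h1, Set.indicator_of_mem h2]
    ring
  · have h1 : ‖y‖ ∉ Set.Ioc ε 1 := hy
    have h2 : y ∉ {y : E2 | ε < ‖y‖ ∧ ‖y‖ ≤ 1} := hy
    show Set.indicator {y : E2 | ε < ‖y‖ ∧ ‖y‖ ≤ 1} (fun y => Ω y / ‖y‖ ^ 2) y =
      Ω y * (Set.Ioc ε 1).indicator (fun r => 1 / r ^ 2) ‖y‖
    rw [Set.indicator_of_notMem h1, Set.indicator_of_notMem h2, mul_zero]

lemma inv_norm_int : Integrable (fun y : E2 => (Set.Iic (1 : ℝ)).indicator (fun r => r⁻¹) ‖y‖) := by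
  rw [integrable_fun_norm_addHaar (volume : Measure E2)
    (f := (Set.Iic (1 : ℝ)).indicator (fun r => r⁻¹)), finrank_E2]
  have h1 : IntegrableOn ((Set.Iic (1 : ℝ)).indicator (fun _ => (1 : ℝ))) (Set.Ioi (0 : ℝ)) := by
    rw [IntegrableOn, integrable_indicator_iff measurableSet_Iic, IntegrableOn,
      Measure.restrict_restrict measurableSet_Iic]
    rw [Set.Iic_inter_Ioi]
    exact integrableOn_const (by simp)
  refine h1.congr_fun ?_ measurableSet_Ioi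
  intro r hr
  have hr' : (0 : ℝ) < r := hr
  by_cases h : r ∈ Set.Iic (1 : ℝ)
  · simp only [Set.indicator_of_mem h, smul_eq_mul]
    rw [show 2 - 1 = 1 from rfl, pow_one, mul_inv_cancel₀ hr'.ne']
  · simp only [Set.indicator_of_notMem h, smul_eq_mul, mul_zero]

theorem t_PV : S_PV := by
  intro f Ω M hf hfc hΩm hΩM hhom h0 x
  have hM : 0 ≤ M := (abs_nonneg _).trans (hΩM 0)
  obtain ⟨K, hK⟩ := ContDiff.lipschitzWith_of_hasCompactSupport hfc hf (by simp)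
  have hfcont : Continuous f := hf.continuous
  have hfint : Integrable f := hfcont.integrable_of_hasCompactSupport hfc
  have hfx : Integrable (fun y => f (x - y)) := hfint.comp_sub_left x
  set F : E2 → ℝ := fun y => f (x - y) * Ω y / ‖y‖ ^ 2 with hF
  set G : E2 → ℝ := fun y => (f (x - y) - f x) * Ω y / ‖y‖ ^ 2 with hG
  have hFm : Measurable F := by
    have h1 : Measurable (fun y => f (x - y)) :=
      (hfcont.comp (continuous_const.sub continuous_id)).measurable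
    exact (h1.mul hΩm).div (measurable_norm.pow_const 2)
  have hGm : Measurable G := by
    have h1 : Measurable (fun y => f (x - y) - f x) :=
      ((hfcont.comp (continuous_const.sub continuous_id)).sub continuous_const).measurable
    exact (h1.mul hΩm).div (measurable_norm.pow_const 2)
  have hm1 : ∀ ε : ℝ, MeasurableSet {y : E2 | ε < ‖y‖} := fun ε =>
    measurableSet_lt measurable_const measurable_norm
  have hm2 : ∀ ε : ℝ, MeasurableSet {y : E2 | ε < ‖y‖ ∧ ‖y‖ ≤ 1} := fun ε =>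
    (measurableSet_lt measurable_const measurable_norm).inter
      (measurableSet_le measurable_norm measurable_const)
  have hFint : ∀ ε : ℝ, 0 < ε → IntegrableOn F {y : E2 | ε < ‖y‖} := by
    intro ε hε
    have hb : Integrable (fun y => |f (x - y)| * (M / ε ^ 2)) := hfx.abs.mul_const _
    refine Integrable.mono' hb.integrableOn hFm.aestronglyMeasurable ?_
    refine (ae_restrict_iff' (hm1 ε)).mpr (ae_of_all _ ?_)
    intro y hy
    have hy' : ε < ‖y‖ := hy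
    have hy0 : 0 < ‖y‖ := hε.trans hy'
    rw [Real.norm_eq_abs, hF]
    show |f (x - y) * Ω y / ‖y‖ ^ 2| ≤ |f (x - y)| * (M / ε ^ 2)
    rw [abs_div, abs_mul, abs_of_pos (pow_pos hy0 2), mul_div_assoc]
    refine mul_le_mul_of_nonneg_left ?_ (abs_nonneg _)
    refine div_le_div₀ hM (hΩM y) (pow_pos hε 2) ?_
    exact pow_le_pow_left₀ hε.le hy'.le 2
  have hGb : ∀ y : E2, |{y : E2 | (0 : ℝ) < ‖y‖ ∧ ‖y‖ ≤ 1}.indicator G y| ≤
      (K : ℝ) * M * (Set.Iic (1 : ℝ)).indicator (fun r => r⁻¹) ‖y‖ := by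
    intro y
    by_cases hy : (0 : ℝ) < ‖y‖ ∧ ‖y‖ ≤ 1
    · have h1 : ‖y‖ ∈ Set.Iic (1 : ℝ) := hy.2
      have h2 : y ∈ {y : E2 | (0 : ℝ) < ‖y‖ ∧ ‖y‖ ≤ 1} := hy
      rw [Set.indicator_of_mem h1, Set.indicator_of_mem h2]
      have h3 : |f (x - y) - f x| ≤ K * ‖y‖ := by
        have h4 := hK.dist_le_mul (x - y) x
        rw [Real.dist_eq, dist_eq_norm] at h4
        have h5 : x - y - x = -y := by abel
        rwa [h5, norm_neg] at h4
      show |(f (x - y) - f x) * Ω y / ‖y‖ ^ 2| ≤ (K : ℝ) * M * ‖y‖⁻¹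
      rw [abs_div, abs_mul, abs_of_pos (pow_pos hy.1 2), div_le_iff₀ (pow_pos hy.1 2)]
      have h6 : (K : ℝ) * M * ‖y‖⁻¹ * ‖y‖ ^ 2 = K * ‖y‖ * M := by
        have := hy.1.ne'
        field_simp
      rw [h6]
      exact mul_le_mul h3 (hΩM y) (abs_nonneg _) (by positivity)
    · have h2 : y ∉ {y : E2 | (0 : ℝ) < ‖y‖ ∧ ‖y‖ ≤ 1} := hy
      rw [Set.indicator_of_notMem h2, abs_zero]
      have h3 : 0 ≤ (Set.Iic (1 : ℝ)).indicator (fun r => r⁻¹) ‖y‖ := by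
        by_cases h : ‖y‖ ∈ Set.Iic (1 : ℝ)
        · rw [Set.indicator_of_mem h]; positivity
        · rw [Set.indicator_of_notMem h]
      positivity
  have hlim : Tendsto (fun ε : ℝ => ∫ y, {y : E2 | ε < ‖y‖ ∧ ‖y‖ ≤ 1}.indicator G y) (𝓝[>] 0)
      (𝓝 (∫ y, {y : E2 | (0 : ℝ) < ‖y‖ ∧ ‖y‖ ≤ 1}.indicator G y)) := by
    refine tendsto_integral_filter_of_dominated_convergence
      (fun y => (K : ℝ) * M * (Set.Iic (1 : ℝ)).indicator (fun r => r⁻¹) ‖y‖) ?_ ?_ ?_ ?_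
    · exact Eventually.of_forall fun ε => (hGm.indicator (hm2 ε)).aestronglyMeasurable
    · filter_upwards [self_mem_nhdsWithin] with ε hε
      refine ae_of_all _ fun y => ?_
      rw [Real.norm_eq_abs]
      refine le_trans ?_ (hGb y)
      by_cases hy : ε < ‖y‖ ∧ ‖y‖ ≤ 1
      · have h1 : y ∈ {y : E2 | ε < ‖y‖ ∧ ‖y‖ ≤ 1} := hy
        have h2 : y ∈ {y : E2 | (0 : ℝ) < ‖y‖ ∧ ‖y‖ ≤ 1} := ⟨lt_trans hε hy.1, hy.2⟩
        rw [Set.indicator_of_mem h1, Set.indicator_of_mem h2]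
      · have h1 : y ∉ {y : E2 | ε < ‖y‖ ∧ ‖y‖ ≤ 1} := hy
        rw [Set.indicator_of_notMem h1, abs_zero]
        exact abs_nonneg _
    · exact inv_norm_int.const_mul _
    · refine ae_of_all _ fun y => ?_
      by_cases hy0 : ‖y‖ = 0
      · have h2 : y ∉ {y : E2 | (0 : ℝ) < ‖y‖ ∧ ‖y‖ ≤ 1} := fun h => h.1.ne' hy0
        rw [Set.indicator_of_notMem h2]
        refine tendsto_const_nhds.congr' ?_
        filter_upwards [self_mem_nhdsWithin] with ε hε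
        have h1 : y ∉ {y : E2 | ε < ‖y‖ ∧ ‖y‖ ≤ 1} := fun h => by
          have h3 : ε < ‖y‖ := h.1
          rw [hy0] at h3
          exact absurd h3 (not_lt.mpr (le_of_lt hε))
        rw [Set.indicator_of_notMem h1]
      · have hpos : 0 < ‖y‖ := lt_of_le_of_ne (norm_nonneg _) (Ne.symm hy0)
        refine tendsto_const_nhds.congr' ?_
        have h4 : ∀ᶠ ε : ℝ in 𝓝[>] 0, ε < ‖y‖ :=
          (eventually_lt_nhds hpos).filter_mono nhdsWithin_le_nhds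
        filter_upwards [h4] with ε hε
        by_cases hy1 : ‖y‖ ≤ 1
        · have h1 : y ∈ {y : E2 | ε < ‖y‖ ∧ ‖y‖ ≤ 1} := ⟨hε, hy1⟩
          have h2 : y ∈ {y : E2 | (0 : ℝ) < ‖y‖ ∧ ‖y‖ ≤ 1} := ⟨hpos, hy1⟩
          rw [Set.indicator_of_mem h1, Set.indicator_of_mem h2]
        · have h1 : y ∉ {y : E2 | ε < ‖y‖ ∧ ‖y‖ ≤ 1} := fun h => hy1 h.2
          have h2 : y ∉ {y : E2 | (0 : ℝ) < ‖y‖ ∧ ‖y‖ ≤ 1} := fun h => hy1 h.2
          rw [Set.indicator_of_notMem h1, Set.indicator_of_notMem h2]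
  refine ⟨(∫ y, {y : E2 | (0 : ℝ) < ‖y‖ ∧ ‖y‖ ≤ 1}.indicator G y) +
    ∫ y in {y : E2 | (1 : ℝ) < ‖y‖}, F y, ?_⟩
  refine (hlim.add_const _).congr' ?_
  have h4 : ∀ᶠ ε : ℝ in 𝓝[>] 0, ε < 1 :=
    (eventually_lt_nhds one_pos).filter_mono nhdsWithin_le_nhds
  filter_upwards [self_mem_nhdsWithin, h4] with ε hε hε1
  have hε0 : (0 : ℝ) < ε := hε
  have hunion : {y : E2 | ε < ‖y‖} = {y : E2 | ε < ‖y‖ ∧ ‖y‖ ≤ 1} ∪ {y : E2 | (1 : ℝ) < ‖y‖} := by
    ext y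
    constructor
    · intro h
      rcases le_or_gt ‖y‖ 1 with h1 | h1
      · exact Or.inl ⟨h, h1⟩
      · exact Or.inr h1
    · rintro (h | h)
      · exact h.1
      · exact lt_trans hε1 h
  have hdisj : Disjoint {y : E2 | ε < ‖y‖ ∧ ‖y‖ ≤ 1} {y : E2 | (1 : ℝ) < ‖y‖} := by
    rw [Set.disjoint_left]
    intro y h1 h2
    exact absurd h1.2 (not_le.mpr h2)
  have hi1 : IntegrableOn F {y : E2 | ε < ‖y‖ ∧ ‖y‖ ≤ 1} :=
    (hFint ε hε0).mono_set fun y hy => hy.1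
  have hi2 : IntegrableOn F {y : E2 | (1 : ℝ) < ‖y‖} := hFint 1 one_pos
  show (∫ y, {y : E2 | ε < ‖y‖ ∧ ‖y‖ ≤ 1}.indicator G y) +
    (∫ y in {y : E2 | (1 : ℝ) < ‖y‖}, F y) = ∫ y in {y : E2 | ε < ‖y‖}, F y
  rw [hunion, setIntegral_union hdisj (hm1 1) hi1 hi2, integral_indicator (hm2 ε)]
  congr 1
  -- `Ω / ‖y‖²` is integrable on the annulus
  have hfin : volume {y : E2 | ε < ‖y‖ ∧ ‖y‖ ≤ 1} < ⊤ := by
    have hsub : {y : E2 | ε < ‖y‖ ∧ ‖y‖ ≤ 1} ⊆ closedBall (0 : E2) 1 := by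
      intro y hy
      rw [mem_closedBall, dist_zero_right]
      exact hy.2
    exact lt_of_le_of_lt (measure_mono hsub) measure_closedBall_lt_top
  have hi3 : IntegrableOn (fun y : E2 => Ω y / ‖y‖ ^ 2) {y : E2 | ε < ‖y‖ ∧ ‖y‖ ≤ 1} := by
    refine Integrable.mono' (g := fun _ => M / ε ^ 2) (integrableOn_const hfin.ne)
      (hΩm.div (measurable_norm.pow_const 2)).aestronglyMeasurable ?_
    refine (ae_restrict_iff' (hm2 ε)).mpr (ae_of_all _ ?_)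
    intro y hy
    have hy' : ε < ‖y‖ := hy.1
    have hy0 : 0 < ‖y‖ := hε0.trans hy'
    rw [Real.norm_eq_abs, abs_div, abs_of_pos (pow_pos hy0 2)]
    refine div_le_div₀ hM (hΩM y) (pow_pos hε0 2) ?_
    exact pow_le_pow_left₀ hε0.le hy'.le 2
  have e1 : ∫ y in {y : E2 | ε < ‖y‖ ∧ ‖y‖ ≤ 1}, G y =
      ∫ y in {y : E2 | ε < ‖y‖ ∧ ‖y‖ ≤ 1}, (F y - f x * (Ω y / ‖y‖ ^ 2)) := by
    refine integral_congr_ae (ae_of_all _ ?_)
    intro y
    show (f (x - y) - f x) * Ω y / ‖y‖ ^ 2 = f (x - y) * Ω y / ‖y‖ ^ 2 - f x * (Ω y / ‖y‖ ^ 2)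
    ring
  rw [e1, integral_sub hi1 (hi3.const_mul _), integral_const_mul, annulus_zero Ω hhom h0 ε,
    mul_zero, sub_zero]

end

end Pool.Agent.Run7.h437.RSI
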